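import Pool.Agent.Gab7b_h87.CY2.Dg_000
import Pool.Agent.Gab7b_h87.CY2.Dg_001
import Pool.Agent.Gab7b_h87.CY2.Dg_010
import Pool.Agent.Gab7b_h87.CY2.Dg_011
import Pool.Agent.Gab7b_h87.CY2.Dg_100
import Pool.Agent.Gab7b_h87.CY2.Dg_101
import Pool.Agent.Gab7b_h87.CY2.Dg_110
import Pool.Agent.Gab7b_h87.CY2.Dg_111

/-! Certificate; see `Pool/Agent/Gab7b_h87/Ax.lean`. -/

set_option autoImplicit false
set_option maxRecDepth 100000

namespace Pool.Agent.Gab7b_h87.CY2

open Pool.Agent.Gab7b_h87.Sat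

/-- the clauses -/
def g : Tr Nat := (.node (.node (.node g_000 g_001) (.node g_010 g_011)) (.node (.node g_100 g_101) (.node g_110 g_111)))

end Pool.Agent.Gab7b_h87.CY2
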